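import Pool.Agent.U139.TB.Tube

set_option autoImplicit false

/-!
# MP_e5cefd_an: tube occupancy bounds for all exponents below `d - 1`

For every `d ≥ 2` there is a (bounded Borel) set `K` in `ℝ^d` with `0 < H^(d-1)(K) < ∞` and
`H^(d-1)(K ∩ T) ≤ C w^(d-1) log (1 / w)` for all tubes `T` of width `w ≤ 1 / 2`. In particular `K`
satisfies the `s`-tube bound for all exponents `0 ≤ s < d - 1` at once.

Proof: `K` is the graph of a function on `[0,1)^(d-1)` which is given by random digits in the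
generations of sides `R_n⁻¹`, `R_(n+1) = R_n ^ N`; the number of the cells of the generation `n` which
meet a tube of width `R_n⁻¹` is at most `C log R_n`, by Markov's inequality for the exponential
moments and a union bound over a finite family of tubes, generation by generation.
-/

namespace Pool.Agent.Results.MP_e5cefd_an.TubeOccupancy

open MeasureTheory

/-- The tube of width `w` around the line `{p + t v}`: the points at a distance of at most `w / 2`
from this line. -/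
def Tube {d : ℕ} (p v : EuclideanSpace ℝ (Fin d)) (w : ℝ) : Set (EuclideanSpace ℝ (Fin d)) :=
  {x | Metric.infDist x (Set.range fun t : ℝ => p + t • v) ≤ w / 2}

/-- The `s`-tube bound: `H^(d-1)(K ∩ T) ≤ C w(T)^s` for all tubes `T` (all lines, all widths). -/
def TubeBound {d : ℕ} (K : Set (EuclideanSpace ℝ (Fin d))) (s : ℝ) : Prop :=
  ∃ C : ℝ, ∀ p v : EuclideanSpace ℝ (Fin d), v ≠ 0 → ∀ w : ℝ, 0 < w →
    μH[(d : ℝ) - 1] (K ∩ Tube p v w) ≤ ENNReal.ofReal (C * w ^ s)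

/-- **Main theorem.** -/
theorem result (d : ℕ) (hd : 2 ≤ d) : ∃ K : Set (EuclideanSpace ℝ (Fin d)),
    MeasurableSet K ∧ Bornology.IsBounded K ∧ 0 < μH[(d : ℝ) - 1] K ∧ μH[(d : ℝ) - 1] K < ⊤ ∧
    (∃ C : ℝ, ∀ p v : EuclideanSpace ℝ (Fin d), v ≠ 0 → ∀ w : ℝ, 0 < w → w ≤ 1 / 2 →
      μH[(d : ℝ) - 1] (K ∩ Tube p v w) ≤
        ENNReal.ofReal (C * w ^ ((d : ℝ) - 1) * Real.log (1 / w))) ∧
    ∀ s : ℝ, 0 ≤ s → s < (d : ℝ) - 1 → TubeBound K s := by
  obtain ⟨k, rfl⟩ : ∃ k, d = k + 1 := ⟨d - 1, by omega⟩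
  obtain ⟨g, hg⟩ := Pool.Agent.U139.TB.exists_seq k
  have hS : Pool.Agent.U139.TB.Sys k g := ⟨fun n => (hg n).1, fun n => (hg n).2⟩
  have hk : (((k + 1 : ℕ) : ℝ) - 1) = k := by push_cast; ring
  rw [hk]
  have hk0 : (0 : ℝ) ≤ k := Nat.cast_nonneg k
  set C₀ : ℝ := (11 * (k + 1)) ^ k * Pool.Agent.U139.TB.BB k * Pool.Agent.U139.TB.KK k /
    Real.log 2 with hC₀
  have hlog2 : 0 < Real.log 2 := Real.log_pos (by norm_num)
  have hC₀pos : 0 ≤ C₀ := by positivity
  have hmain : ∀ p v : EuclideanSpace ℝ (Fin (k + 1)), v ≠ 0 → ∀ w : ℝ, 0 < w → w ≤ 1 / 2 →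
      μH[(k : ℝ)] (Pool.Agent.U139.TB.GG g ∩ Tube p v w) ≤
        ENNReal.ofReal (C₀ * w ^ (k : ℝ) * Real.log (1 / w)) := by
    intro p v hv w hw0 hw
    have h := Pool.Agent.U139.TB.tube_bound hS p v w hv hw0 hw
    rw [Real.rpow_natCast]
    exact h
  refine ⟨Pool.Agent.U139.TB.GG g, Pool.Agent.U139.TB.measurable_GG,
    Pool.Agent.U139.TB.bounded_GG hS, Pool.Agent.U139.TB.measure_pos,
    (Pool.Agent.U139.TB.measure_lt_top hS).trans_lt ENNReal.ofReal_lt_top, ⟨C₀, hmain⟩, ?_⟩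
  intro s hs0 hs
  set ε : ℝ := k - s with hε
  have hε0 : 0 < ε := by rw [hε]; linarith
  set C₁ : ℝ := C₀ / ε with hC₁
  set C₂ : ℝ := (2 : ℝ) ^ k * ((k + 1) / 2) ^ k * 2 ^ s with hC₂
  have hC₁0 : 0 ≤ C₁ := by positivity
  have hC₂0 : 0 ≤ C₂ := by positivity
  refine ⟨C₁ + C₂, ?_⟩
  intro p v hv w hw0
  rw [hk]
  rcases le_or_gt w (1 / 2) with hw | hw
  · refine (hmain p v hv w hw0 hw).trans (ENNReal.ofReal_le_ofReal ?_)
    have h1 : Real.log (1 / w) ≤ (1 / w) ^ ε / ε := Real.log_le_rpow_div (by positivity) hε0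
    calc C₀ * w ^ (k : ℝ) * Real.log (1 / w) ≤ C₀ * w ^ (k : ℝ) * ((1 / w) ^ ε / ε) := by gcongr
      _ = C₁ * w ^ s := by
          rw [one_div, Real.inv_rpow hw0.le, ← Real.rpow_neg hw0.le]
          have : w ^ (k : ℝ) * w ^ (-ε) = w ^ s := by
            rw [← Real.rpow_add hw0]
            congr 1
            rw [hε]; ring
          rw [hC₁, ← this]
          ring
      _ ≤ (C₁ + C₂) * w ^ s := by
          gcongr
          linarith
  · refine (measure_mono Set.inter_subset_left).trans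
      ((Pool.Agent.U139.TB.measure_lt_top hS).trans (ENNReal.ofReal_le_ofReal ?_))
    have h1 : (1 : ℝ) ≤ 2 ^ s * w ^ s := by
      rw [← Real.mul_rpow (by norm_num) hw0.le]
      exact Real.one_le_rpow (by linarith) hs0
    calc (2 : ℝ) ^ k * ((k + 1) / 2) ^ k = (2 : ℝ) ^ k * ((k + 1) / 2) ^ k * 1 := by ring
      _ ≤ (2 : ℝ) ^ k * ((k + 1) / 2) ^ k * (2 ^ s * w ^ s) := by gcongr
      _ = C₂ * w ^ s := by rw [hC₂]; ring
      _ ≤ (C₁ + C₂) * w ^ s := by
          gcongr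
          linarith

end Pool.Agent.Results.MP_e5cefd_an.TubeOccupancy
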